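import Mathlib

/-!
# `S^9(t_{6,2})` is not rich (MP_dfec24)

For the generalized Thue-Morse word `t_{6,2}` (sum of digits in base 6, modulo 2) the ninth
iterate `S^9(t_{6,2})` of the sum-modulo-2 operation has a factor of length 17 with only 17
distinct palindromic factors (the empty word included), so it is not rich.
-/

namespace Pool.Agent.Results.MP_dfec24_co.NotRich

/-- The generalized Thue-Morse word `t_{b,2}`: the parity of the sum of the digits of `n`
in base `b`. -/
def tm (b : ℕ) : ℕ → ℕ := fun n => (Nat.digits b n).sum % 2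

/-- The operation `S`: `v_n = (u_n + u_{n+1}) mod 2`. -/
def S (u : ℕ → ℕ) : ℕ → ℕ := fun n => (u n + u (n + 1)) % 2

/-- The factor of length `l` of the infinite word `u` starting at index `i`. -/
def factor (u : ℕ → ℕ) (i l : ℕ) : List ℕ := (List.range l).map fun j => u (i + j)

/-- A finite word is rich if it has exactly `|w| + 1` distinct palindromic factors, the empty
word included. -/
def RichWord (w : List ℕ) : Prop :=
  {v : List ℕ | v <:+: w ∧ v.reverse = v}.ncard = w.length + 1

/-- An infinite word is rich if all its finite factors are rich. -/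
def Rich (u : ℕ → ℕ) : Prop := ∀ i l : ℕ, RichWord (factor u i l)

/-- The palindromic factors of `w`, as a finite set. -/
def pals (w : List ℕ) : Finset (List ℕ) :=
  ((w.tails.flatMap List.inits).filter fun v => v.reverse = v).toFinset

theorem coe_pals (w : List ℕ) : (pals w : Set (List ℕ)) = {v | v <:+: w ∧ v.reverse = v} := by
  ext v
  simp only [pals, List.coe_toFinset, List.mem_filter, List.mem_flatMap, List.mem_tails,
    List.mem_inits, decide_eq_true_eq, Set.mem_ofPred_eq]
  constructor
  · rintro ⟨⟨t, ht, hv⟩, h⟩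
    exact ⟨hv.isInfix.trans ht.isInfix, h⟩
  · rintro ⟨⟨a, c, h⟩, h'⟩
    refine ⟨⟨v ++ c, ⟨a, ?_⟩, List.prefix_append _ _⟩, h'⟩
    rw [← List.append_assoc]; exact h

/-- The factor of length 17 of `S^9(t_{6,2})` starting at index 17. -/
theorem factor_eq : factor (S^[9] (tm 6)) 17 17 =
    [1, 0, 0, 0, 1, 0, 1, 0, 0, 0, 0, 0, 1, 0, 0, 0, 1] := by
  decide +kernel

theorem not_richWord :
    ¬ RichWord [1, 0, 0, 0, 1, 0, 1, 0, 0, 0, 0, 0, 1, 0, 0, 0, 1] := by
  unfold RichWord
  rw [← coe_pals, Set.ncard_coe_finset]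
  decide +kernel

/-- The word `S^9(t_{6,2})` is not rich. -/
theorem not_rich : ¬ Rich (S^[9] (tm 6)) := fun h => not_richWord (factor_eq ▸ h 17 17)

/-- **Negative answer to Q1 of MP_dfec24.** -/
theorem result : ¬ ∀ b : ℕ, 2 ≤ b → ∀ k : ℕ, 1 ≤ k → Rich (S^[k] (tm b)) :=
  fun h => not_rich (h 6 (by norm_num) 9 (by norm_num))

end Pool.Agent.Results.MP_dfec24_co.NotRich
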